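import Pool.Agent.Q154.OS.ProdFin
import Pool.Agent.W564.SC.LibB

/-!
# Converse of the `Ω`-stability theorem: diffeomorphisms with large toral symmetry

`V n = ℝⁿ`, `DiffM n N r` is `Diff^r(N)`, `strongTop n N r` its strong (Whitney) `C^r` topology (the usual
one, `N` being compact) (`Pool/Agent/H718R2/G0.lean`). `OmegaStable n N r F`: all diffeomorphisms of a
neighbourhood of `F` in `Diff^r(N)` are conjugate to `F` on the nonwandering sets
(`Pool/Agent/TH80/OMS/Defs.lean`). `FreeTorus k n N R`: `R` is a free smooth action of the torus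
`𝕋ᵏ = ℝᵏ/ℤᵏ` on `N` (`Pool/Agent/W564/SC/Defs.lean`).
-/

set_option autoImplicit false

open scoped Manifold ContDiff Topology

universe u

namespace Pool.Agent.Results.MP_814647_an.BigTorusSymmetry

open Pool.Agent.H718R2.G Pool.Agent.W564.SC Pool.Agent.TH80.OMS Pool.Agent.Y504.CO
  Pool.Agent.Q154.OS

/-- Let `N` be a nonempty closed manifold of dimension `n`, and let `k ≥ 3` and `r ≥ 1` be integers with
`r k > (r - 1) n`, that is `k > (1 - 1/r) n`. Let `F ∈ Diff^r(N)` be a `C^r` limit of diffeomorphisms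
`F'` (for example `F' = F`) each of which commutes with some free smooth action of the torus `𝕋ᵏ` on
`N`. Then `F` is not `Ω`-stable. -/
theorem result {k n : ℕ} {N : Type u} [TopologicalSpace N] [T2Space N] [CompactSpace N] [Nonempty N]
    [ChartedSpace (V n) N] [IsManifold (𝓡 n) ∞ N] (r : ℕ) (hr : 1 ≤ r) (hk : 3 ≤ k)
    (hrk : (r - 1) * n < r * k) (F : DiffM n N (r : ℕ∞))
    (h : ∀ U : Set (DiffM n N (r : ℕ∞)), IsOpen[strongTop n N (r : ℕ∞)] U → F ∈ U →
      ∃ F' ∈ U, ∃ R : V k → N → N, FreeTorus k n N R ∧ ∀ a y, F' (R a y) = R a (F' y)) :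
    ¬ OmegaStable n N (r : ℕ∞) F := by
  intro hF
  have hr' : (1 : ℕ∞) ≤ (r : ℕ∞) := by exact_mod_cast hr
  obtain ⟨U₁, hU₁, hFU₁, hfin⟩ := finite_per hr' hF
  obtain ⟨U₂, hU₂, hFU₂, hper⟩ := per_of_closable hF
  obtain ⟨F', ⟨hF'₁, hF'₂⟩, R, hR, hcomm⟩ := h (U₁ ∩ U₂)
    (@IsOpen.inter _ (strongTop n N (r : ℕ∞)) _ _ hU₁ hU₂) ⟨hFU₁, hFU₂⟩
  obtain ⟨z, -, hz⟩ := exists_rec (F' : N → N) F'.continuous Set.univ isClosed_univ Set.univ_nonempty
    (fun _ _ => Set.mem_univ _)
  have hnw : NonWand F' z := by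
    intro W hW
    obtain ⟨m, hm, h1⟩ := hz W hW
    exact ⟨m, hm, z, mem_of_mem_nhds hW, h1⟩
  obtain ⟨p, c, hc, hp⟩ := hper F' hF'₂ z (t_B k n N r hr hk hrk R hR F' hcomm z hnw)
  have hinf : (Set.range fun a : V k => R a p).Infinite := by
    intro hfin'
    -- the points `(t, 0, …, 0)`, `0 ≤ t < 1`, give different points
    have hinj : Set.InjOn (fun t : ℝ => R (EuclideanSpace.single (⟨0, by omega⟩ : Fin k) t) p)
        (Set.Ico 0 1) := by
      intro s hs t ht hst
      have h1 : R (EuclideanSpace.single (⟨0, by omega⟩ : Fin k) s -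
          EuclideanSpace.single (⟨0, by omega⟩ : Fin k) t) p = p := by
        have h2 : R (-EuclideanSpace.single (⟨0, by omega⟩ : Fin k) t)
            (R (EuclideanSpace.single (⟨0, by omega⟩ : Fin k) s) p) =
            R (-EuclideanSpace.single (⟨0, by omega⟩ : Fin k) t)
            (R (EuclideanSpace.single (⟨0, by omega⟩ : Fin k) t) p) := by
          exact congrArg _ hst
        rw [← hR.add, ← hR.add, neg_add_cancel, hR.zero] at h2
        rw [sub_eq_neg_add]
        exact h2
      obtain ⟨m, hm⟩ := (hR.free _ _).1 h1 ⟨0, by omega⟩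
      have h3 : s - t = m := by
        rw [← hm]
        simp
      have h5 : (m : ℝ) < 1 := by rw [← h3]; linarith [hs.1, hs.2, ht.1, ht.2]
      have h6 : (-1 : ℝ) < m := by rw [← h3]; linarith [hs.1, hs.2, ht.1, ht.2]
      have h7 : m < 1 := by exact_mod_cast h5
      have h8 : -1 < m := by exact_mod_cast h6
      have h9 : m = 0 := by omega
      rw [h9, Int.cast_zero] at h3
      linarith
    have h10 : ((fun t : ℝ => R (EuclideanSpace.single (⟨0, by omega⟩ : Fin k) t) p) ''
        Set.Ico 0 1).Infinite := (Set.Ico_infinite (zero_lt_one (α := ℝ))).image hinj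
    refine h10 (hfin'.subset ?_)
    rintro _ ⟨t, -, rfl⟩
    exact ⟨_, rfl⟩
  refine hinf ((hfin F' hF'₁ c hc).subset ?_)
  rintro _ ⟨a, rfl⟩
  have hit : ∀ i : ℕ, F'^[i] (R a p) = R a (F'^[i] p) := by
    intro i
    induction i with
    | zero => rfl
    | succ i ih => rw [Function.iterate_succ_apply', ih, hcomm, Function.iterate_succ_apply' F']
  show F'^[c] (R a p) = R a p
  rw [hit, hp]

end Pool.Agent.Results.MP_814647_an.BigTorusSymmetry
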