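import Pool.Agent.Q154.NS.Sum

/-!
# The sign conjecture and isomorphisms of numerical motives

`C` is a `ℚ`-linear rigid symmetric monoidal category with `End(1) = ℚ`; `R` and `R'` are symmetric
monoidal additive functors to finite dimensional super vector spaces over fields `K` and `K'`, for
example the category of noncommutative Chow motives with topological periodic cyclic homology.
-/

set_option autoImplicit false

open CategoryTheory Limits MonoidalCategory

namespace Pool.Agent.Q154.Moved.NumericalDirectSums

open Pool.Agent.Y112.SR Pool.Agent.Q259.NCSign Pool.Agent.Q154.NS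

universe v u w w'

/-- Let the numerical motives of `N j` be independent direct summands of the numerical motive of
`M`, with the sign conjecture for all `N j` with respect to `R'`. (1) The dimensions of the even
parts of the `R'(N j)` add up to at most the dimension of the even part of `R(M)`, and similarly for
the odd parts. (2) If the dimensions of the `R'(N j)` add up to the dimension of `R(M)`, then the
sign conjecture holds for `M` with respect to `R`. (3) If the numerical motive of `M` is the direct
sum of the numerical motives of the `N j`, then the sign conjecture holds for `M` with respect to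
`R` if and only if the dimensions of the `R'(N j)` add up to the dimension of `R(M)`. -/
theorem result {C : Type u} [Category.{v} C] [Preadditive C] [Linear ℚ C] [MonoidalCategory C]
    [SymmetricCategory C] [RightRigidCategory C]
    (hunit : ∀ c : 𝟙_ C ⟶ 𝟙_ C, ∃ q : ℚ, c = q • 𝟙 _)
    {K : Type w} [Field K] (R : SuperRealisation C K)
    {K' : Type w'} [Field K'] (R' : SuperRealisation C K') (M : C) {k : ℕ} (N : Fin k → C)
    (i : ∀ j, N j ⟶ M) (r : ∀ j, M ⟶ N j) (h : NumSummands M N i r)
    (hC : ∀ j, R'.CPlus (N j)) :
    (∑ j, evd R' (N j) ≤ evd R M ∧ ∑ j, odd R' (N j) ≤ odd R M) ∧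
    (∑ j, Module.finrank K' (R'.H.obj (N j)) = Module.finrank K (R.H.obj M) → R.CPlus M) ∧
    (NumTrivial (∑ j, r j ≫ i j - 𝟙 M) →
      (R.CPlus M ↔ ∑ j, Module.finrank K' (R'.H.obj (N j)) = Module.finrank K (R.H.obj M))) := by
  obtain ⟨h1, h2, h3, h4⟩ := sum_main R hunit R' h hC
  have h5 : ∑ j, Module.finrank K' (R'.H.obj (N j)) = ∑ j, evd R' (N j) + ∑ j, odd R' (N j) := by
    rw [← Finset.sum_add_distrib]
    exact Finset.sum_congr rfl fun j _ => (evd_add_odd R' (N j)).symm
  have h6 := evd_add_odd R M
  have h7 : ∑ j, Module.finrank K' (R'.H.obj (N j)) = Module.finrank K (R.H.obj M) →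
      R.CPlus M := by
    intro h8
    apply h3
    omega
  refine ⟨⟨h1, h2⟩, h7, fun hfull => ⟨fun hM => ?_, h7⟩⟩
  obtain ⟨h8, h9⟩ := h4 hfull hM
  omega

end Pool.Agent.Q154.Moved.NumericalDirectSums
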