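import Pool.Agent.Q154.OS.Basic
import Pool.Agent.Q183.CE.Mixed

/-!
# Converse of the `Ω`-stability theorem: equivariant diffeomorphisms over towers

`V n = ℝⁿ`, `DiffM n N r = Diff^r(N)`, `strongTop n N r` is its strong (Whitney) `C^r` topology (the
usual one, `N` being compact) (`Pool/Agent/H718R2/G0.lean`). `OmegaStable n N r F`: all diffeomorphisms
of a neighbourhood of `F` in `Diff^r(N)` are conjugate to `F` on the nonwandering sets
(`Pool/Agent/TH80/OMS/Defs.lean`). `IsLieAction n N ι univ act`: smooth action on `N` of a compact Lie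
group (`Pool/Agent/TH80/CLX/Defs.lean`).

`OverMixedTower n N act F d l s e m π F₀` (`Pool/Agent/Q183/CE/Mixed.lean`): the orbit space of the
action is the torus `TM d l s e m = 𝕋^d × 𝕋^l × 𝕋^s × 𝕋^e × 𝕋^m`, with projection `π`, the translations of
this torus lift to a smooth family of diffeomorphisms of `N` which commute with the action
(`IsTorusQuot`, `Pool/Agent/Q183/CE/Defs.lean`; true for all principal bundles over tori), and `F`
induces on it the map with the lift `F₀`, a tower over a mixed base map:
* `IsMixedBase H`: `H (b, θ, x) = (h b, θ + ω b, (c_i x_i)_i)` with `h` Hölder conjugate to a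
  hyperbolic toral automorphism (as every Anosov diffeomorphism of `𝕋^d` is), `ω` Lipschitz, `c_i`
  circle homeomorphisms conjugate to rotations;
* `MixTower 0 H F₀`: `F₀` is a lift of a homeomorphism of the torus, and
  `F₀ (b, x, y) = (H b, (g_i (b, x_i))_{i < e}, (y_i + φ_i (b, x, y_0, …, y_{i-1}))_{i < m})`
  with increasing `g_i (b, ·)` (`Pool/Agent/H922R3/CL/DefsB.lean`).
-/

set_option autoImplicit false

open scoped Manifold ContDiff Topology

universe u

namespace Pool.Agent.Results.MP_814647_an.PrincipalBundlesOverTowers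

open Pool.Agent.H718R2.G Pool.Agent.W564.SC Pool.Agent.TH80.CLX Pool.Agent.TH80.OMS
  Pool.Agent.Y504.CO Pool.Agent.Q183.CE Pool.Agent.Q154.OS

/-- `F` commutes with a smooth action, all of whose orbits are infinite, of a compact Lie group on `N`,
the orbit space is a torus, and `F` induces on it a tower over a mixed base map. -/
def IsOverTower (n : ℕ) (N : Type u) [TopologicalSpace N] [ChartedSpace (V n) N] (F : N → N) : Prop :=
  ∃ (G : Type) (_ : Group G) (_ : TopologicalSpace G) (_ : CompactSpace G) (q : ℕ)
    (ι : G →* Matrix (Fin q) (Fin q) ℂ) (act : G → N → N), IsLieAction n N ι Set.univ act ∧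
    (∀ g y, F (act g y) = act g (F y)) ∧ (∀ y, (Set.range fun g => act g y).Infinite) ∧
    ∃ (d l s e m : ℕ) (π : N → TM d l s e m)
      (F₀ : Pool.Agent.H922R3.CL.VM d l s e m ≃ Pool.Agent.H922R3.CL.VM d l s e m),
      OverMixedTower n N act F d l s e m π F₀

/-- Let `N` be a nonempty closed manifold and `1 ≤ r ≤ ∞`. Suppose that `F ∈ Diff^r(N)` is a `C^r` limit
of diffeomorphisms `F'` (for example `F' = F`) which commute with a smooth action of a compact Lie group
on `N`, for example a principal bundle over a torus with a structure group of positive dimension, and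
induce on the orbit space, which is a torus, a tower over a mixed base map: `e` families of orientation
preserving circle homeomorphisms, without any domination, and `m` circle extensions by translations,
driven by the product of circle homeomorphisms conjugate to rotations with an isometric toral extension
of an Anosov diffeomorphism. Then `F` is not `Ω`-stable. -/
theorem result {n : ℕ} {N : Type u} [TopologicalSpace N] [T2Space N] [CompactSpace N] [Nonempty N]
    [ChartedSpace (V n) N] [IsManifold (𝓡 n) ∞ N] (r : ℕ∞) (hr : 1 ≤ r) (F : DiffM n N r)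
    (h : ∀ U : Set (DiffM n N r), IsOpen[strongTop n N r] U → F ∈ U →
      ∃ F' ∈ U, IsOverTower n N F') : ¬ OmegaStable n N r F := by
  intro hF
  obtain ⟨U₁, hU₁, hFU₁, hfin⟩ := finite_per hr hF
  obtain ⟨U₂, hU₂, hFU₂, hper⟩ := per_of_closable hF
  obtain ⟨F', ⟨hF'₁, hF'₂⟩, G, _, _, _, q, ι, act, hact, hcomm, hinf, d, l, s, e, m, π, F₀, hT⟩ :=
    h (U₁ ∩ U₂) (@IsOpen.inter _ (strongTop n N r) _ _ hU₁ hU₂) ⟨hFU₁, hFU₂⟩
  obtain ⟨z, -, hz⟩ := exists_rec (F' : N → N) F'.continuous Set.univ isClosed_univ Set.univ_nonempty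
    (fun _ _ => Set.mem_univ _)
  have hnwz : NonWand F' z := by
    intro W hW
    obtain ⟨j, hj, h1⟩ := hz W hW
    exact ⟨j, hj, z, mem_of_mem_nhds hW, h1⟩
  obtain ⟨R, hR⟩ := hT.quot
  obtain ⟨H, hH, hF₀⟩ := hT.tower
  obtain ⟨t, ht⟩ := QuotientAddGroup.mk_surjective (π z)
  have hnw := nonwand_base hR F' F₀ hT.lift z t ht.symm hnwz
  have hcl := closable_of_transl r hr hact hR F' hcomm F₀ hT.lift z t ht.symm
    (mixed_transl hH hF₀ hnw)
  obtain ⟨p, c, hc, hp⟩ := hper F' hF'₂ z hcl
  refine hinf p ((hfin F' hF'₁ c hc).subset ?_)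
  rintro _ ⟨g, rfl⟩
  have hit : ∀ i : ℕ, F'^[i] (act g p) = act g (F'^[i] p) := by
    intro i
    induction i with
    | zero => rfl
    | succ i ih => rw [Function.iterate_succ_apply', ih, hcomm, Function.iterate_succ_apply' F']
  show F'^[c] (act g p) = act g p
  rw [hit, hp]

end Pool.Agent.Results.MP_814647_an.PrincipalBundlesOverTowers
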